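import Pool.Agent.Helper74.Assembly

/-!
# A basic sequence that cannot be extended to a basis

We answer the question negatively: there is a Banach space with an unconditional basis that
contains an (unconditional) basic sequence no rearrangement of which is a subsequence of a basis
of the space.

The space is the `ℓ_2`-sum of the blocks `ℓ_∞(Θ_k) ⊕ ℓ_2^{2^k}`.  With `U` the symmetric
normalised Sylvester-Hadamard matrix and `j : ℓ_2^{2^k} → ℓ_∞(Θ_k)` an isomorphic embedding,
the basic sequence consists of the vectors `(j (e_i - U e_i)/2, (e_i + U e_i)/2)`.  If some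
rearrangement of it were a subsequence of a basis, then the partial sum projections of that basis
would yield operators `ℓ_∞(Θ_k) → ℓ_2^{2^k}` with uniformly bounded norms extending operators with
Hilbert-Schmidt norm of the order of `2^{k/2}`, contradicting the little Grothendieck theorem
(proved here by hand with a Riesz product).
-/

set_option autoImplicit false

open Filter Topology

namespace Pool.Agent.Results.MP_72464c_an.NonExtendable

open Pool.Agent.Helper74

/-- a discrete intermediate value argument: at some time exactly half of the points of a finite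
set of even cardinality have been enumerated -/
theorem exists_half {ι : Type} [Fintype ι] [DecidableEq ι] (pos : ι → ℕ)
    (hpos : Function.Injective pos) (d : ℕ) (hd : d ≤ Fintype.card ι) :
    ∃ m : ℕ, (Finset.univ.filter (fun i => pos i < m)).card = d := by
  classical
  have hbig : ∃ m : ℕ, d ≤ (Finset.univ.filter (fun i => pos i < m)).card := by
    refine ⟨Finset.univ.sup pos + 1, ?_⟩
    rw [Finset.filter_true_of_mem]
    · rwa [Finset.card_univ]
    · intro i _
      have : pos i ≤ Finset.univ.sup pos := Finset.le_sup (Finset.mem_univ i)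
      omega
  let m := Nat.find hbig
  have hm : d ≤ (Finset.univ.filter (fun i => pos i < m)).card := Nat.find_spec hbig
  refine ⟨m, le_antisymm ?_ hm⟩
  rcases Nat.eq_zero_or_pos m with h0 | h0
  · rw [h0]; simp
  · have hlt : ¬ d ≤ (Finset.univ.filter (fun i => pos i < m - 1)).card :=
      Nat.find_min hbig (by omega)
    have hsub : Finset.univ.filter (fun i => pos i < m)
        ⊆ Finset.univ.filter (fun i => pos i < m - 1)
          ∪ Finset.univ.filter (fun i => pos i = m - 1) := by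
      intro i hi
      simp only [Finset.mem_filter, Finset.mem_univ, true_and, Finset.mem_union] at hi ⊢
      omega
    have hone : (Finset.univ.filter (fun i => pos i = m - 1)).card ≤ 1 := by
      rw [Finset.card_le_one]
      intro a ha b hb
      simp only [Finset.mem_filter, Finset.mem_univ, true_and] at ha hb
      exact hpos (ha.trans hb.symm)
    have h1 := Finset.card_le_card hsub
    have h2 := Finset.card_union_le (Finset.univ.filter (fun i => pos i < m - 1))
      (Finset.univ.filter (fun i => pos i = m - 1))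
    omega

section Main

variable (𝕜 : Type) [RCLike 𝕜]

/-- no enumeration of the vectors `yVec` is a subsequence of a basis -/
theorem not_extendable (τ : ℕ ≃ (Σ k, Cube k)) (u : ℕ → Spc 𝕜) (hu : IsSchauderBasis 𝕜 u)
    (p : ℕ → ℕ) (hp : StrictMono p) (hup : ∀ n, u (p n) = yVec 𝕜 (τ n)) : False := by
  classical
  obtain ⟨K0, S, hSK0, hSu⟩ := exists_partialSum_operators hu
  set K := max K0 0 with hKdef
  have hK : 0 ≤ K := le_max_right _ _
  have hSK : ∀ n x, ‖S n x‖ ≤ K * ‖x‖ := fun n x =>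
    (hSK0 n x).trans (mul_le_mul_of_nonneg_right (le_max_left _ _) (norm_nonneg _))
  -- the estimate in each block
  have hblock : ∀ k : ℕ, 1 ≤ k → (2 : ℝ) ^ k / 16 ≤ 4 * K * Real.sqrt (2 ^ k) := by
    intro k hk
    set pos : Cube k → ℕ := fun i => τ.symm ⟨k, i⟩ with hpos
    have hinj : Function.Injective pos := by
      intro i j hij
      have := τ.symm.injective hij
      simpa using this
    obtain ⟨m, hm⟩ := exists_half pos hinj (2 ^ (k - 1)) (by
      simp only [Fintype.card_pi, Fintype.card_bool, Finset.prod_const, Finset.card_univ,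
        Fintype.card_fin]
      exact Nat.pow_le_pow_right (by norm_num) (by omega))
    set A : Finset (Cube k) := Finset.univ.filter (fun i => pos i < m) with hA
    have hTy : ∀ i : Cube k, S (p m) (yVec 𝕜 ⟨k, i⟩) = if i ∈ A then yVec 𝕜 ⟨k, i⟩ else 0 := by
      intro i
      have h1 : yVec 𝕜 ⟨k, i⟩ = u (p (pos i)) := by
        rw [hup, hpos]
        simp
      rw [h1, hSu]
      have h2 : p (pos i) < p m ↔ i ∈ A := by
        rw [hp.lt_iff_lt, hA]
        simp
      by_cases h : i ∈ A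
      · rw [if_pos h, if_pos (h2.mpr h)]
      · rw [if_neg h, if_neg (fun h' => h (h2.mp h'))]
    -- the operator from `ℓ_∞(Θ)` to the Hilbert space
    let inc : (net 𝕜 k → 𝕜) →ₗ[𝕜] Spc 𝕜 :=
      (lp.lsingle (𝕜 := 𝕜) (E := Blk 𝕜) 2 k).comp (LinearMap.inl 𝕜 _ _)
    let evk : Spc 𝕜 →ₗ[𝕜] Blk 𝕜 k := (lp.evalCLM 𝕜 (Blk 𝕜) 2 k).toLinearMap
    let R : (net 𝕜 k → 𝕜) →ₗ[𝕜] EuclideanSpace 𝕜 (Cube k) :=
      (LinearMap.snd 𝕜 _ _).comp (evk.comp ((S (p m)).toLinearMap.comp inc))
    have hRK : ∀ f, ‖R f‖ ≤ K * ‖f‖ := by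
      intro f
      have h1 : R f = (S (p m) (lp.single 2 k (f, 0)) k).2 := rfl
      rw [h1]
      calc ‖(S (p m) (lp.single 2 k (f, 0)) k).2‖ ≤ ‖S (p m) (lp.single 2 k (f, 0)) k‖ :=
            norm_snd_le _
        _ ≤ ‖S (p m) (lp.single 2 k (f, 0))‖ := lp.norm_apply_le_norm (by norm_num) _ k
        _ ≤ K * ‖(lp.single 2 k ((f, 0) : Blk 𝕜 k) : lp (Blk 𝕜) 2)‖ := hSK _ _
        _ = K * ‖f‖ := by
            rw [lp.norm_single (by norm_num), Prod.norm_mk, norm_zero,
              max_eq_left (norm_nonneg _)]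
    have hRj : ∀ c : EuclideanSpace 𝕜 (Cube k), hadU 𝕜 k c = -c →
        R (jmap (net 𝕜 k) c) = (2⁻¹ : 𝕜) • (restr A c + hadU 𝕜 k (restr A c)) := by
      intro c hc
      have h1 : ((jmap (net 𝕜 k) c, 0) : Blk 𝕜 k) = Ymap 𝕜 k c := by
        rw [Ymap_apply, hc, sub_neg_eq_add, add_neg_cancel, smul_zero, ← two_smul 𝕜 c, smul_smul,
          inv_mul_cancel₀ two_ne_zero, one_smul]
      have h2 : (lp.single 2 k (Ymap 𝕜 k c) : lp (Blk 𝕜) 2)
          = ∑ i, c i • yVec 𝕜 ⟨k, i⟩ := by
        have h3 : Ymap 𝕜 k c = ∑ i, c i • yBlk 𝕜 k i := by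
          rw [sum_yBlk]
          congr 1
          ext l
          rw [restr_apply, if_pos (Finset.mem_univ l)]
        have h4 := map_sum (lp.lsingle (𝕜 := 𝕜) (E := Blk 𝕜) 2 k)
          (fun i => c i • yBlk 𝕜 k i) Finset.univ
        simp only [map_smul] at h4
        rw [h3]
        exact h4
      have h5 : S (p m) (lp.single 2 k (Ymap 𝕜 k c))
          = lp.single 2 k (Ymap 𝕜 k (restr A c)) := by
        have h6 : (lp.single 2 k (Ymap 𝕜 k (restr A c)) : lp (Blk 𝕜) 2)
            = ∑ i ∈ A, c i • yVec 𝕜 ⟨k, i⟩ := by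
          have h3 : Ymap 𝕜 k (restr A c) = ∑ i ∈ A, c i • yBlk 𝕜 k i := by
            rw [sum_yBlk]
          have h4 := map_sum (lp.lsingle (𝕜 := 𝕜) (E := Blk 𝕜) 2 k)
            (fun i => c i • yBlk 𝕜 k i) A
          simp only [map_smul] at h4
          rw [h3]
          exact h4
        rw [h2, h6, map_sum]
        simp only [map_smul, hTy, smul_ite, smul_zero]
        rw [Finset.sum_ite_mem, Finset.univ_inter]
      have h7 : R (jmap (net 𝕜 k) c)
          = (S (p m) (lp.single 2 k ((jmap (net 𝕜 k) c, 0) : Blk 𝕜 k)) k).2 := rfl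
      rw [h7, h1, h5, lp.single_apply_self, Ymap_apply]
    have hobs := obstruction (net 𝕜 k) (net_norm_le 𝕜 k) R K hK hRK A hRj
    rw [hm] at hobs
    have hpow : (2 : ℝ) ^ k = 2 * 2 ^ (k - 1) := by
      rw [← pow_succ']
      congr 1
      omega
    have hcast : ((2 ^ (k - 1) : ℕ) : ℝ) = 2 ^ (k - 1) := by push_cast; rfl
    rw [hcast] at hobs
    have h8 : (2 : ℝ) ^ k / 16 = (2 : ℝ) ^ (k - 1) * (2 ^ k - 2 ^ (k - 1)) / (4 * 2 ^ k) := by
      rw [hpow]
      have : (2 : ℝ) ^ (k - 1) ≠ 0 := by positivity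
      field_simp
      ring
    rw [h8]
    exact hobs
  -- conclusion
  obtain ⟨k, hk⟩ := pow_unbounded_of_one_lt ((64 * K) ^ 2) (by norm_num : (1 : ℝ) < 2)
  have h1 := hblock (k + 1) (by omega)
  have h2 : (0 : ℝ) < 2 ^ (k + 1) := by positivity
  have h3 : (2 : ℝ) ^ (k + 1) = Real.sqrt (2 ^ (k + 1)) * Real.sqrt (2 ^ (k + 1)) :=
    (Real.mul_self_sqrt h2.le).symm
  have h4 : 0 < Real.sqrt ((2 : ℝ) ^ (k + 1)) := Real.sqrt_pos.mpr h2
  have h5 : Real.sqrt ((2 : ℝ) ^ (k + 1)) ≤ 64 * K := by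
    have h6 : Real.sqrt ((2 : ℝ) ^ (k + 1)) * Real.sqrt (2 ^ (k + 1))
        ≤ (64 * K) * Real.sqrt (2 ^ (k + 1)) := by
      rw [← h3]
      linarith
    exact le_of_mul_le_mul_right h6 h4
  have h7 : (2 : ℝ) ^ (k + 1) ≤ (64 * K) ^ 2 := by
    rw [h3, sq]
    exact mul_self_le_mul_self h4.le h5
  have h8 : (2 : ℝ) ^ k ≤ 2 ^ (k + 1) := pow_le_pow_right₀ (by norm_num) (by omega)
  linarith

end Main

/-- There is a Banach space `E` with an unconditional basis `e` and a sequence `y` in `E` which is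
an unconditional basic sequence (every rearrangement of `y` is a basic sequence) such that no
rearrangement of `y` (in particular `y` itself) is a subsequence of a basis of `E`. -/
theorem result (𝕜 : Type) [RCLike 𝕜] :
    ∃ (E : Type) (_ : NormedAddCommGroup E) (_ : NormedSpace 𝕜 E) (_ : CompleteSpace E),
      (∃ e : ℕ → E, ∀ σ : Equiv.Perm ℕ, IsSchauderBasis 𝕜 (fun n => e (σ n))) ∧
      ∃ y : ℕ → E, (∀ σ : Equiv.Perm ℕ, IsBasicSequence 𝕜 (fun n => y (σ n))) ∧
        ∀ σ : Equiv.Perm ℕ, ¬ ∃ u : ℕ → E, IsSchauderBasis 𝕜 u ∧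
          ∃ p : ℕ → ℕ, StrictMono p ∧ ∀ n, u (p n) = y (σ n) := by
  have hI : Infinite (Σ k, Cube k) :=
    Infinite.of_injective (fun k : ℕ => (⟨k, fun _ => false⟩ : Σ k, Cube k))
      (fun a b h => by simpa using congrArg Sigma.fst h)
  have hB : Infinite (Σ k, ((net 𝕜 k) ⊕ Cube k)) :=
    Infinite.of_injective
      (fun k : ℕ => (⟨k, Sum.inr (fun _ => false)⟩ : Σ k, ((net 𝕜 k) ⊕ Cube k)))
      (fun a b h => by simpa using congrArg Sigma.fst h)
  obtain ⟨dI⟩ := nonempty_denumerable (Σ k, Cube k)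
  obtain ⟨dB⟩ := nonempty_denumerable (Σ k, ((net 𝕜 k) ⊕ Cube k))
  let τ : ℕ ≃ (Σ k, Cube k) := (@Denumerable.eqv _ dI).symm
  let β : ℕ ≃ (Σ k, ((net 𝕜 k) ⊕ Cube k)) := (@Denumerable.eqv _ dB).symm
  refine ⟨Spc 𝕜, inferInstance, inferInstance, inferInstance, ⟨fun n => eVec 𝕜 (β n), ?_⟩,
    fun n => yVec 𝕜 (τ n), ?_, ?_⟩
  · intro σ
    have h := isBasicSequence_of_unconditional (eVec_ne_zero 𝕜) 1 (eVec_unconditional 𝕜)
      (σ.trans β)
    refine isSchauderBasis_of_dense h ?_
    have hr : Set.range (fun n => eVec 𝕜 ((σ.trans β) n)) = Set.range (eVec 𝕜) :=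
      (σ.trans β).surjective.range_comp (eVec 𝕜)
    change ∀ x : Spc 𝕜, x ∈ (Submodule.span 𝕜
      (Set.range (fun n => eVec 𝕜 ((σ.trans β) n)))).topologicalClosure
    rw [hr]
    exact eVec_dense 𝕜
  · intro σ
    exact isBasicSequence_of_unconditional (yVec_ne_zero 𝕜) 3 (yVec_unconditional 𝕜)
      (σ.trans τ)
  · rintro σ ⟨u, hu, p, hp, hup⟩
    exact not_extendable 𝕜 (σ.trans τ) u hu p hp hup

end Pool.Agent.Results.MP_72464c_an.NonExtendable
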